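import Pool.Agent.U963.OB.Defs

/-!
# Virtual closures of two braids on three strands
-/

set_option autoImplicit false

namespace Pool.Agent.U963.VB

open Pool.Agent.H891R2.Jones Pool.Agent.W639.RB Pool.Agent.U963.KN

/-- The outside of a box of two strands made from the outside `O` of a box of three upward strands: the third
strand of the box is drawn, as a vertical strand without crossings. -/
def closeLast (O : Outer 3) : Outer 2 where
  P := O.P
  arcs := O.arcs ++ [(O.lower 2, O.upper 2)]
  crossings := O.crossings
  lower := fun j => O.lower j.castSucc
  upper := fun j => O.upper j.castSucc
  up := fun _ => true

/-- The outside of a box of three strands made from the outside `O` of a box of two strands: the lower and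
upper ends of the old box become the left and right ends of the new box, and the upper middle end of the
new box is joined to its lower middle end by an arc without classical crossings (a virtual arc). -/
def insertVirtual (O : Outer 2) : Outer 3 where
  P := O.P ⊕ Unit
  arcs := O.arcs.map (Prod.map .inl .inl)
  crossings := O.crossings.map (Crossing.map .inl)
  lower := ![.inl (O.lower 0), .inr (), .inl (O.lower 1)]
  upper := ![.inl (O.upper 0), .inr (), .inl (O.upper 1)]
  up := fun _ => true

/-- The outside of the box of a second 3-braid in the virtual closure of two 3-braids: the third strand of the
first braid `u` is closed, its first and second upper (lower) ends are joined to the left and right lower (upper)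
ends of the box, and the middle ends of the box are joined by a virtual arc. -/
def twoBraids (u : List (Letter 3)) : Outer 3 :=
  insertVirtual (closeLast (draw (braidClosure 3) (u.map fun x => (x.1, (x.2 : ℕ)))))

end Pool.Agent.U963.VB
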