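import Pool.Agent.U963.VB.Zf
import Pool.Agent.U963.OB.Last

/-!
# The virtual closures of two braids
-/

set_option autoImplicit false

namespace Pool.Agent.U963.KN

open Finset LaurentPolynomial Pool.Agent.H891R2.Jones Pool.Agent.W639.RB Pool.Agent.Y463.SK Pool.Agent.Y463.MP
open Pool.Agent.U963.VB (closeLast insertVirtual twoBraids)

/-! ### closedness -/

theorem good_closeLast (O : Outer 3) (hu : ∀ j, O.up j = true) (h : Good O (fun _ => true)) : 
    Good (closeLast O) (fun _ => true) := by
  constructor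
  · intro x
    change O.P at x
    have hz := h.1 x
    unfold Sst at hz
    rw [Fin.sum_univ_three, Fin.sum_univ_three, hu, hu, hu] at hz
    simp only [true_and, not_true_eq_false, false_and, if_false, add_zero] at hz
    show ((O.arcs ++ [(O.lower 2, O.upper 2)]).map (fun z : O.P × O.P => if z.1 = x then (1 : ℕ) else 0)).sum + 
      (O.crossings.map (cst x)).sum + 
      (∑ j : Fin 2, if (true = true ∧ O.lower j.castSucc = x) then 1 else 0) + 
      (∑ j : Fin 2, if (¬ (true = true) ∧ O.upper j.castSucc = x) then 1 else 0) = 1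
    rw [Fin.sum_univ_two, Fin.sum_univ_two, List.map_append, List.sum_append]
    simp only [true_and, not_true_eq_false, false_and, if_false, add_zero, List.map_cons, List.map_nil, List.sum_cons, 
      List.sum_nil]
    have e0 : (Fin.castSucc (0 : Fin 2)) = (0 : Fin 3) := rfl
    have e1 : (Fin.castSucc (1 : Fin 2)) = (1 : Fin 3) := rfl
    rw [e0, e1]
    omega
  · intro x
    change O.P at x
    have hz : ((O.arcs.map Prod.swap).map (fun y : O.P × O.P => if y.1 = x then (1 : ℕ) else 0)).sum + 
      ((O.crossings.map Crossing.rev).map (cst x)).sum + 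
      (∑ j : Fin 3, if ((!(O.up j)) = true ∧ O.lower j = x) then 1 else 0) + 
      (∑ j : Fin 3, if (¬ ((!true) = true) ∧ O.upper j = x) then 1 else 0) = 1 := h.2 x
    rw [Fin.sum_univ_three, Fin.sum_univ_three, hu, hu, hu] at hz
    simp only [Bool.not_true, Bool.false_eq_true, not_false_eq_true, true_and, false_and, if_false, add_zero] at hz
    show (((O.arcs ++ [(O.lower 2, O.upper 2)]).map Prod.swap).map (fun y : O.P × O.P => if y.1 = x then (1 : ℕ) else 0)).sum + 
      ((O.crossings.map Crossing.rev).map (cst x)).sum + 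
      (∑ j : Fin 2, if ((!true) = true ∧ O.lower j.castSucc = x) then 1 else 0) + 
      (∑ j : Fin 2, if (¬ ((!true) = true) ∧ O.upper j.castSucc = x) then 1 else 0) = 1
    rw [Fin.sum_univ_two, Fin.sum_univ_two, List.map_append, List.map_append, List.sum_append]
    simp only [Bool.not_true, Bool.false_eq_true, not_false_eq_true, true_and, false_and, if_false, add_zero, List.map_cons, 
      List.map_nil, List.sum_cons, List.sum_nil, Prod.swap_prod_mk]
    have e0 : (Fin.castSucc (0 : Fin 2)) = (0 : Fin 3) := rfl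
    have e1 : (Fin.castSucc (1 : Fin 2)) = (1 : Fin 3) := rfl
    rw [e0, e1]
    omega

section
variable {P : Type} [DecidableEq P]

theorem usum_inl (l : List (P × P)) (x : P) : 
    ((l.map (Prod.map (Sum.inl : P → P ⊕ Unit) (Sum.inl : P → P ⊕ Unit))).map (fun z : (P ⊕ Unit) × (P ⊕ Unit) => if z.1 = Sum.inl x then (1 : ℕ) else 0)).sum = 
      (l.map (fun z : P × P => if z.1 = x then (1 : ℕ) else 0)).sum := by
  rw [List.map_map]
  congr 2
  funext z
  simp

theorem usum_inr (l : List (P × P)) (b : Unit) : 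
    ((l.map (Prod.map (Sum.inl : P → P ⊕ Unit) (Sum.inl : P → P ⊕ Unit))).map (fun z : (P ⊕ Unit) × (P ⊕ Unit) => if z.1 = Sum.inr b then (1 : ℕ) else 0)).sum = 0 := by
  rw [List.map_map]
  apply List.sum_eq_zero
  intro n hn
  rw [List.mem_map] at hn
  obtain ⟨z, _, rfl⟩ := hn
  simp

theorem ucsum_inl (l : List (Crossing P)) (x : P) : 
    ((l.map (Crossing.map (Sum.inl : P → P ⊕ Unit))).map (cst (Sum.inl x))).sum = (l.map (cst x)).sum := by
  rw [List.map_map]
  congr 2
  funext c
  simp only [Function.comp_apply, cst, Crossing.map]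
  congr 1
  · split_ifs <;> simp_all
  · split_ifs <;> simp_all

theorem ucsum_inr (l : List (Crossing P)) (b : Unit) : 
    ((l.map (Crossing.map (Sum.inl : P → P ⊕ Unit))).map (cst (Sum.inr b))).sum = 0 := by
  rw [List.map_map]
  apply List.sum_eq_zero
  intro n hn
  rw [List.mem_map] at hn
  obtain ⟨⟨a, b, c, d, u, o⟩, _, rfl⟩ := hn
  cases u <;> cases o <;> simp [cst, Crossing.map]

theorem aux_ins (arcs : List (P × P)) (cr : List (Crossing P)) (l0 l1 : P) 
    (H : ∀ z, (arcs.map (fun y : P × P => if y.1 = z then (1 : ℕ) else 0)).sum + (cr.map (cst z)).sum + 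
      ((if l0 = z then 1 else 0) + (if l1 = z then 1 else 0)) = 1) (x : P ⊕ Unit) : 
    ((arcs.map (Prod.map (Sum.inl : P → P ⊕ Unit) (Sum.inl : P → P ⊕ Unit))).map 
      (fun z : (P ⊕ Unit) × (P ⊕ Unit) => if z.1 = x then (1 : ℕ) else 0)).sum + 
    ((cr.map (Crossing.map (Sum.inl : P → P ⊕ Unit))).map (cst x)).sum + 
    ((if Sum.inl l0 = x then 1 else 0) + (if Sum.inr () = x then 1 else 0) + (if Sum.inl l1 = x then 1 else 0)) = 1 := by
  rcases x with x | y
  · rw [usum_inl, ucsum_inl, if_neg (show ¬ ((Sum.inr () : P ⊕ Unit) = Sum.inl x) by simp), add_zero]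
    simp only [Sum.inl.injEq]
    exact H x
  · rw [usum_inr, ucsum_inr, if_neg (show ¬ ((Sum.inl l0 : P ⊕ Unit) = Sum.inr y) by simp), 
      if_neg (show ¬ ((Sum.inl l1 : P ⊕ Unit) = Sum.inr y) by simp)]
    simp

end

theorem good_insert (O : Outer 2) (hu : ∀ j, O.up j = true) (h : Good O (fun _ => true)) : 
    Good (insertVirtual O) (fun _ => true) := by
  constructor
  · intro x
    change O.P ⊕ Unit at x
    have H := aux_ins O.arcs O.crossings (O.lower 0) (O.lower 1) (by
      intro z
      have hz := h.1 z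
      unfold Sst at hz
      rw [Fin.sum_univ_two, Fin.sum_univ_two, hu, hu] at hz
      simp only [true_and, not_true_eq_false, false_and, if_false, add_zero] at hz
      exact hz) x
    refine Eq.trans ?_ H
    show ((O.arcs.map (Prod.map (Sum.inl : O.P → O.P ⊕ Unit) (Sum.inl : O.P → O.P ⊕ Unit))).map 
        (fun z : (O.P ⊕ Unit) × (O.P ⊕ Unit) => if z.1 = x then (1 : ℕ) else 0)).sum + 
      ((O.crossings.map (Crossing.map (Sum.inl : O.P → O.P ⊕ Unit))).map (cst x)).sum + 
      (∑ j : Fin 3, if (true = true ∧ (![Sum.inl (O.lower 0), Sum.inr (), Sum.inl (O.lower 1)] : Fin 3 → O.P ⊕ Unit) j = x) then 1 else 0) + 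
      (∑ j : Fin 3, if (¬ (true = true) ∧ (![Sum.inl (O.upper 0), Sum.inr (), Sum.inl (O.upper 1)] : Fin 3 → O.P ⊕ Unit) j = x) then 1 else 0) = _
    rw [Fin.sum_univ_three, Fin.sum_univ_three]
    simp only [true_and, not_true_eq_false, false_and, if_false, add_zero]
    rfl
  · intro x
    change O.P ⊕ Unit at x
    have H := aux_ins (O.arcs.map Prod.swap) (O.crossings.map Crossing.rev) (O.upper 0) (O.upper 1) (by
      intro z
      have hz : ((O.arcs.map Prod.swap).map (fun y : O.P × O.P => if y.1 = z then (1 : ℕ) else 0)).sum + 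
        ((O.crossings.map Crossing.rev).map (cst z)).sum + 
        (∑ j : Fin 2, if ((!(O.up j)) = true ∧ O.lower j = z) then 1 else 0) + 
        (∑ j : Fin 2, if (¬ ((!true) = true) ∧ O.upper j = z) then 1 else 0) = 1 := h.2 z
      rw [Fin.sum_univ_two, Fin.sum_univ_two, hu, hu] at hz
      simp only [Bool.not_true, Bool.false_eq_true, not_false_eq_true, true_and, false_and, if_false, add_zero] at hz
      exact hz) x
    refine Eq.trans ?_ H
    have ea : (insertVirtual O).rev.arcs = (O.arcs.map Prod.swap).map (Prod.map Sum.inl Sum.inl) := by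
      unfold insertVirtual Outer.rev
      dsimp only
      rw [List.map_map, List.map_map]
      rfl
    have ec : (insertVirtual O).rev.crossings = (O.crossings.map Crossing.rev).map (Crossing.map Sum.inl) := by
      unfold insertVirtual Outer.rev
      dsimp only
      rw [List.map_map, List.map_map]
      rfl
    unfold Sst
    rw [ea, ec]
    show (((O.arcs.map Prod.swap).map (Prod.map (Sum.inl : O.P → O.P ⊕ Unit) (Sum.inl : O.P → O.P ⊕ Unit))).map 
        (fun z : (O.P ⊕ Unit) × (O.P ⊕ Unit) => if z.1 = x then (1 : ℕ) else 0)).sum + 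
      (((O.crossings.map Crossing.rev).map (Crossing.map (Sum.inl : O.P → O.P ⊕ Unit))).map (cst x)).sum + 
      (∑ j : Fin 3, if ((!true) = true ∧ (![Sum.inl (O.lower 0), Sum.inr (), Sum.inl (O.lower 1)] : Fin 3 → O.P ⊕ Unit) j = x) then 1 else 0) + 
      (∑ j : Fin 3, if (¬ ((!true) = true) ∧ (![Sum.inl (O.upper 0), Sum.inr (), Sum.inl (O.upper 1)] : Fin 3 → O.P ⊕ Unit) j = x) then 1 else 0) = _
    rw [Fin.sum_univ_three, Fin.sum_univ_three]
    simp only [Bool.not_true, Bool.false_eq_true, not_false_eq_true, true_and, false_and, if_false, add_zero]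
    rfl

theorem good_cl3 : Good (braidClosure 3) (fun _ => true) := by
  constructor
  · intro x
    change Fin 3 at x
    fin_cases x <;> rfl
  · intro x
    change Fin 3 at x
    fin_cases x <;> rfl

theorem good_twoN (u : List (Bool × ℕ)) (hu : ∀ x ∈ u, x.2 + 1 < 3) : Good (twoN u) (fun _ => true) := by
  have hg := good_draw _ u _ good_cl3
  have h2 := (draw_up u (braidClosure 3) hu (fun _ => rfl)).1
  exact good_insert _ (fun _ => rfl) (good_closeLast _ h2 hg)

theorem closed_two (u w : List (Letter 3)) : (dia (twoBraids u) w).IsClosed := by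
  unfold dia
  rw [closed_iff]
  have h2 : (draw (twoBraids u) (w.map (fun x => (x.1, (x.2 : ℕ))))).up = fun _ => true := by
    funext j
    exact (draw_up _ (twoBraids u) (toN_lt w) (fun _ => rfl)).1 j
  rw [h2]
  exact good_draw _ _ _ (good_twoN _ (toN_lt u))

end Pool.Agent.U963.KN
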