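import Pool.Agent.U963.VB.Last

/-!
# The virtual closures of two braids: the classification
-/

set_option autoImplicit false

namespace Pool.Agent.U963.OB

open Finset LaurentPolynomial Pool.Agent.H891R2.Jones Pool.Agent.W639.RB Pool.Agent.Y463.SK Pool.Agent.Y463.MP
open Pool.Agent.U963.AR (V3)
open Pool.Agent.U963.KN
open Pool.Agent.U963.VB (closeLast insertVirtual twoBraids)

theorem two_iff (u w : List (Letter 3)) : (dia (twoBraids u) w).fPoly = 1 ↔ 
    ((∃ x : Letter 3, SameBraid w [x]) ∧ Unknotted u) ∨ 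
    ((∃ (s : Bool) (n : ℤ), SameBraid u (s1 n ++ [(s, 1)] ++ s1 (-n))) ∧ Unknotted w) := by
  unfold dia
  show (draw (twoN (u.map (fun x => (x.1, (x.2 : ℕ))))) (w.map (fun x => (x.1, (x.2 : ℕ))))).close.fPoly = 1 ↔ _
  rw [f_two _ (KN.toN_lt u) _ (KN.toN_lt w)]
  have cu := cor_map u
  have cw := cor_map w
  have hu := KN.toN_lt u
  have hw := KN.toN_lt w
  generalize u.map (fun x => (x.1, (x.2 : ℕ))) = U at *
  generalize w.map (fun x => (x.1, (x.2 : ℕ))) = W at *
  constructor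
  · intro hS
    have hE := X_eqs U
    have hE' := X_eqs W
    rw [De_eq] at hE hE'
    rcases sol6 (X_a0 U) (X_a0 W) hE hE' hS with ⟨h1, h2, h3⟩ | ⟨h2, h3⟩
    · left
      refine ⟨?_, (unk_iff cu).1 ((iff4 hu).1 h3)⟩
      obtain ⟨s, hs⟩ : ∃ s : Bool, expo W = if s then 1 else -1 := by
        rcases h1 with h | h
        · exact ⟨true, h⟩
        · exact ⟨false, h⟩
      rcases h2 with h2 | h2
      · refine ⟨(s, 0), (tr_same cw (cor_map [(s, 0)])).1 (same_of ?_ (by rw [hs]; exact (expo_letter s 0).symm))⟩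
        rw [h2, hs]
        exact (X_letter s).1.symm
      · refine ⟨(s, 1), (tr_same cw (cor_map [(s, 1)])).1 (same_of ?_ (by rw [hs]; exact (expo_letter s 1).symm))⟩
        rw [h2, hs]
        exact (X_letter s).2.symm
    · right
      obtain ⟨s, n, h⟩ := main2 h2
      exact ⟨⟨s, n, (tr_same cu (cor_t2 s n)).1 h⟩, (unk_iff cw).1 ((iff4 hw).1 h3)⟩
  · rintro (⟨⟨⟨s, i⟩, h⟩, h'⟩ | ⟨⟨s, n, h⟩, h'⟩)
    · have h1 := (tr_same cw (cor_map [(s, i)])).2 h
      have h2 := (iff4 hu).2 ((unk_iff cu).2 h')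
      have hlt : ∀ x ∈ [(s, (i : ℕ))], x.2 + 1 < 3 := by
        intro x hx
        rw [List.mem_singleton.1 hx]
        show (i : ℕ) + 1 < 3
        omega
      have e1 : X W = X [(s, (i : ℕ))] := h1.X hw hlt
      have e2 : expo W = expo [(s, (i : ℕ))] := h1.expo
      rw [e1, e2]
      exact conv1 h2 s i
    · have h1 := (tr_same cu (cor_t2 s n)).2 h
      have h2 := (iff4 hw).2 ((unk_iff cw).2 h')
      rw [h1.X hu (t2_lt s n), h1.expo]
      exact conv2 h2 s n

end Pool.Agent.U963.OB
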