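import Pool.Agent.U963.KN.Cl2
import Mathlib.Algebra.DualNumber

/-!
# The solutions for two boxes
-/

set_option autoImplicit false

namespace Pool.Agent.U963.KN

open Finset LaurentPolynomial Pool.Agent.H891R2.Jones Pool.Agent.W639.RB Pool.Agent.Y463.SK Pool.Agent.Y463.MP
open Pool.Agent.U963.AR (V3 run one stp)

/-! ### the derivative at `B = 1` -/

/-- the unit `1 + n ε` -/
def dU (n : ℤ) : (DualNumber ℤ)ˣ := ⟨1 + n • DualNumber.eps, 1 - n • DualNumber.eps, by
  have h : (DualNumber.eps : DualNumber ℤ) * DualNumber.eps = 0 := DualNumber.eps_mul_eps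
  rw [mul_sub, add_mul, add_mul, smul_mul_smul_comm, h]
  simp, by
  have h : (DualNumber.eps : DualNumber ℤ) * DualNumber.eps = 0 := DualNumber.eps_mul_eps
  rw [sub_mul, mul_add, mul_add, smul_mul_smul_comm, h]
  simp⟩

theorem dU_mul (m n : ℤ) : dU m * dU n = dU (m + n) := by
  ext : 1
  have h : (DualNumber.eps : DualNumber ℤ) * DualNumber.eps = 0 := DualNumber.eps_mul_eps
  show (1 + m • DualNumber.eps) * (1 + n • DualNumber.eps) = (1 + (m + n) • DualNumber.eps : DualNumber ℤ)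
  rw [add_mul, mul_add, mul_add, smul_mul_smul_comm, h, add_smul]
  simp
  abel

theorem dU_zero : dU 0 = 1 := by
  ext : 1
  show (1 + (0 : ℤ) • DualNumber.eps : DualNumber ℤ) = 1
  simp

theorem dU_zpow (n : ℤ) : dU 1 ^ n = dU n := by
  induction n using Int.induction_on with
  | zero => rw [zpow_zero, dU_zero]
  | succ n ih => rw [zpow_add_one, ih, dU_mul]
  | pred n ih =>
    have h : (dU 1)⁻¹ = dU (-1) := by
      rw [inv_eq_iff_mul_eq_one, dU_mul]
      simpa using dU_zero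
    rw [zpow_sub_one, ih, h, dU_mul]
    congr 1

/-- the value and the derivative at `1` -/
noncomputable def eD : ℤ[T;T⁻¹] →+* DualNumber ℤ := evu (dU 1)

theorem eD_T (n : ℤ) : eD (T n) = 1 + n • DualNumber.eps := by
  unfold eD
  rw [evu_T, dU_zpow]
  rfl

/-- the value and the derivative as a map to pairs -/
theorem snd_T (n : ℤ) : TrivSqZeroExt.snd (1 + n • DualNumber.eps : DualNumber ℤ) = n ∧ TrivSqZeroExt.fst (1 + n • DualNumber.eps : DualNumber ℤ) = 1 := by
  constructor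
  · rw [TrivSqZeroExt.snd_add, TrivSqZeroExt.snd_smul, DualNumber.snd_eps, TrivSqZeroExt.snd_one]
    simp
  · rw [TrivSqZeroExt.fst_add, TrivSqZeroExt.fst_smul, DualNumber.fst_eps, TrivSqZeroExt.fst_one]
    simp

theorem deriv_eq {n e : ℤ} (h : (T n - T (-n) : ℤ[T;T⁻¹]) = (T 2 + T (-2)) * (T e - T (-e))) : n = 2 * e := by
  have h1 := congrArg eD h
  simp only [map_sub, map_mul, map_add, eD_T] at h1
  have h2 := congrArg TrivSqZeroExt.snd h1
  simp only [TrivSqZeroExt.snd_sub, TrivSqZeroExt.snd_mul, (snd_T _).1, TrivSqZeroExt.fst_sub, (snd_T _).2] at h2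
  rw [TrivSqZeroExt.snd_add (1 + (2 : ℤ) • DualNumber.eps : DualNumber ℤ), TrivSqZeroExt.fst_add (1 + (2 : ℤ) • DualNumber.eps : DualNumber ℤ)] at h2
  simp only [(snd_T _).1, (snd_T _).2] at h2
  simp only [smul_eq_mul, sub_self, MulOpposite.op_zero, zero_smul] at h2
  omega

/-! ### the two kinds of factors -/

theorem endgame {e : ℤ} (hee : e = 1 ∨ e = -1) {v : V3 ℤ[T;T⁻¹]} (h0 : v.a0 = 1) (h : Eqs (sg e * T (-2 * e)) v) 
    (P3 : v.a3 + v.a4 = 0) (q2 : v.a1 + v.a2 = - T e - dB) : 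
    v = ⟨1, T (-e), 0, 0, 0⟩ ∨ v = ⟨1, 0, T (-e), 0, 0⟩ := by
  obtain ⟨h1, h2, h3, h4, h5, t1, t2, t3, t4⟩ := h
  have heo : ¬ Even e := by rcases hee with rfl | rfl <;> decide
  have hse : sg e = -1 := by unfold sg; rw [if_neg heo]
  rw [hse] at h1 h2 h3 h4 h5
  have hu : (T e : ℤ[T;T⁻¹]) * T (-e) = 1 := by rw [T_mul]; simp
  have hD : (T (-2 * e) : ℤ[T;T⁻¹]) = T (-e) ^ 2 := by
    rw [T_pow]
    congr 1
    push_cast
    ring
  rw [hD] at h1 h2 h3 h4 h5
  have q2' : ba v.a1 + ba v.a2 = - T (-e) - dB := by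
    have := congrArg ba q2
    rwa [map_add, map_sub, map_neg, ba_T, ba_dB] at this
  have P3' : ba v.a3 + ba v.a4 = 0 := by
    have := congrArg ba P3
    rwa [map_add, map_zero] at this
  have hb : dB = - T e - T (-e) := by
    unfold dB
    rcases hee with rfl | rfl
    · rfl
    · rw [neg_neg]; ring
  have e5 : dB * T (-e) = -1 - T (-e) ^ 2 := by
    rw [hb]
    linear_combination -hu
  have a2 : v.a2 = T (-e) - v.a1 := by
    linear_combination q2 - hb
  have b2 : ba v.a2 = T e - ba v.a1 := by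
    linear_combination q2' - hb
  have a4 : v.a4 = - v.a3 := by linear_combination P3
  have b4 : ba v.a4 = - ba v.a3 := by linear_combination P3'
  have h1' : T (-e) ^ 2 * (dB * ba v.a1 - ba v.a3) = dB * v.a1 + v.a3 := by
    linear_combination -h1 - T (-e) ^ 2 * b4 - a4 - dB * a2 - e5
  have h3' : T (-e) ^ 2 * (ba v.a1 - dB * ba v.a3) = v.a1 + dB * v.a3 := by
    linear_combination -h3 - T (-e) ^ 2 * dB * b4
  have g1 : (dB ^ 2 - 1) * (v.a3 + T (-e) ^ 2 * ba v.a3) = 0 := by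
    linear_combination -dB * h3' + h1'
  have g2 : v.a3 + T (-e) ^ 2 * ba v.a3 = 0 := by
    rcases mul_eq_zero.1 g1 with h | h
    · exact absurd h dB_sq_ne
    · exact h
  have g4 : T (-e) ^ 2 * ba v.a1 = v.a1 := by
    apply mul_left_cancel₀ dB_ne
    linear_combination h1' + g2
  rw [a2, a4] at h5
  have g5 : (dB ^ 2 - 1) * (v.a1 * (T (-e) - v.a1) + v.a3 ^ 2) = 0 := by
    linear_combination h5 - e5
  have g6 : v.a1 * (T (-e) - v.a1) + v.a3 ^ 2 = 0 := by
    rcases mul_eq_zero.1 g5 with h | h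
    · exact absurd h dB_sq_ne
    · exact h
  have g7 : ba (T e * v.a1) = T e * v.a1 := by
    rw [map_mul, ba_T]
    linear_combination T e * g4 - T (-e) * ba v.a1 * hu
  have g8 : (T e * v.a1) * (1 - T e * v.a1) = (T e * v.a3) * ba (T e * v.a3) := by
    rw [map_mul, ba_T]
    linear_combination T e ^ 2 * g6 - T e * v.a1 * hu - T e ^ 2 * v.a3 * g2 + T e * T (-e) * v.a3 * ba v.a3 * hu
  obtain ⟨g9, g10⟩ := zero_one g7 g8
  have a3 : v.a3 = 0 := (mul_eq_zero.1 g9).resolve_left (T_ne e)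
  have a4' : v.a4 = 0 := by rw [a4, a3, neg_zero]
  rcases g10 with g10 | g10
  · right
    have a1 : v.a1 = 0 := (mul_eq_zero.1 g10).resolve_left (T_ne e)
    exact mk_eq h0 a1 (by rw [a2, a1, sub_zero]) a3 a4'
  · left
    have a1 : v.a1 = T (-e) := by linear_combination T (-e) * g10 - v.a1 * hu
    exact mk_eq h0 a1 (by rw [a2, a1, sub_self]) a3 a4'

theorem facA {e m : ℤ} {v : V3 ℤ[T;T⁻¹]} {s : ℤ[T;T⁻¹]} (h0 : v.a0 = 1) (h : Eqs (sg e * T (-2 * e)) v) 
    (P3 : v.a3 + v.a4 = 0) (hu : (dB + (v.a1 + v.a2)) * s = T m) : 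
    (e = 1 ∨ e = -1) ∧ dB + (v.a1 + v.a2) = - T e ∧ (v = ⟨1, T (-e), 0, 0, 0⟩ ∨ v = ⟨1, 0, T (-e), 0, 0⟩) := by
  have h' := h
  obtain ⟨h1, h2, h3, h4, h5, t1, t2, t3, t4⟩ := h
  have P3' : ba v.a3 + ba v.a4 = 0 := by
    have := congrArg ba P3
    rwa [map_add, map_zero] at this
  have hs : sg e * T (-2 * e) * (ba v.a1 + ba v.a2) = - (v.a1 + v.a2) := by
    linear_combination h3 + h4 - sg e * T (-2 * e) * dB * P3' - dB * P3
  have hc : 1 + dB * (v.a1 + v.a2) = sg e * T (-2 * e) := by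
    apply mul_left_cancel₀ two_ne
    linear_combination (-1 : ℤ[T;T⁻¹]) * (h1 + h2) + dB * hs + sg e * T (-2 * e) * P3' - P3
  obtain ⟨hee, hk⟩ := twist_unit (j := 0) hc hu
  exact ⟨hee, hk, endgame hee h0 h' P3 (by linear_combination hk)⟩

theorem e1_sg (e : ℤ) : e1 (sg e) = if Even e then 1 else -1 := by
  unfold sg
  split_ifs <;> simp

theorem facB {e m : ℤ} {v : V3 ℤ[T;T⁻¹]} {s : ℤ[T;T⁻¹]} (h0 : v.a0 = 1) (h : Eqs (sg e * T (-2 * e)) v) 
    (hu : S3 dB 0 v * s = T m) : Even e ∧ S3 dB 0 v = T e := by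
  obtain ⟨h1, h2, h3, h4, h5, t1, t2, t3, t4⟩ := h
  obtain ⟨j, hj⟩ := unit_form2 hu
  have hτ : S3 dB 0 v = dB ^ 2 + dB * v.a1 + dB * v.a2 + v.a3 + v.a4 := by
    unfold S3
    rw [h0]
    ring
  have k1 := congrArg e1 h1
  have k2 := congrArg e1 h2
  have k3 := congrArg e1 h3
  have k4 := congrArg e1 h4
  have kτ := congrArg e1 hτ
  simp only [map_add, map_mul, map_neg, map_one, map_pow, e1_T, e1_ba, e1_dB, mul_one, e1_sg] at k1 k2 k3 k4 kτ
  have hje : e1 (S3 dB 0 v) = 1 ∨ e1 (S3 dB 0 v) = -1 := by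
    rcases hj with hj | hj
    · left; rw [hj, e1_T]
    · right; rw [hj, map_neg, e1_T]
  have hev : Even e := by
    by_contra hc
    rw [if_neg hc] at k1 k2 k3 k4
    omega
  rw [if_pos hev] at k1 k2 k3 k4
  have h6 : S3 dB 0 v = T j := by
    rcases hj with hj | hj
    · exact hj
    · exfalso
      have : e1 (S3 dB 0 v) = -1 := by rw [hj, map_neg, e1_T]
      omega
  refine ⟨hev, ?_⟩
  have hs : sg e = 1 := by unfold sg; rw [if_pos hev]
  rw [hs] at h1 h2
  have hu' : (T e : ℤ[T;T⁻¹]) * T (-e) = 1 := by rw [T_mul]; simp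
  have hD : (T (-2 * e) : ℤ[T;T⁻¹]) = T (-e) ^ 2 := by
    rw [T_pow]
    congr 1
    push_cast
    ring
  rw [hD] at h1 h2
  have hd : dB ^ 2 - 2 = (T 2 + T (-2) : ℤ[T;T⁻¹]) := by
    have := dB_sq
    linear_combination this
  have h7 : T j = dB ^ 2 + dB * v.a1 + dB * v.a2 + v.a3 + v.a4 := h6.symm.trans hτ
  have h8 : (T (-j) : ℤ[T;T⁻¹]) = dB ^ 2 + dB * ba v.a1 + dB * ba v.a2 + ba v.a3 + ba v.a4 := by
    have := congrArg ba h7
    simpa only [map_add, map_mul, map_pow, ba_T, ba_dB] using this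
  have h9 : (T (e + j) - T (-(e + j)) : ℤ[T;T⁻¹]) = (T 2 + T (-2)) * (T e - T (-e)) := by
    have e1' : (T (-(e + j)) : ℤ[T;T⁻¹]) = T (-e) * T (-j) := by
      rw [T_mul]; congr 1; ring
    rw [← hd, e1', ← T_mul]
    linear_combination (-T e) * (h1 + h2) + T e * h7 - T e * T (-e) ^ 2 * h8 + 
      (2 * T (-e) - dB ^ 2 * T (-e) + T (-e) * T (-j)) * hu'
  have h10 := deriv_eq h9
  have : j = e := by omega
  rw [h6, this]

/-! ### the functional of two boxes -/

/-- the functional for two boxes -/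
def S6 {R : Type*} [CommRing R] (d : R) (u v : V3 R) : R := 
  (d * u.a0 + u.a2) * (d ^ 2 * v.a0 + d * v.a1 + d * v.a2 + v.a3 + v.a4) + 
    (d * u.a1 + u.a3 + u.a4) * (d * v.a0 + v.a1 + v.a2 + v.a3 + v.a4)

theorem sol6 {x y : ℤ} {u v : V3 ℤ[T;T⁻¹]} (u0 : u.a0 = 1) (v0 : v.a0 = 1) (hu : Eqs (sg x * T (-2 * x)) u) 
    (hv : Eqs (sg y * T (-2 * y)) v) (hS : S6 dB u v = sg (x + y) * T (x + y)) : 
    ((y = 1 ∨ y = -1) ∧ (v = ⟨1, T (-y), 0, 0, 0⟩ ∨ v = ⟨1, 0, T (-y), 0, 0⟩) ∧ S3 dB 0 u = sg x * T x) ∨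
    (S2 dB u = sg x * T x ∧ S3 dB 0 v = sg y * T y) := by
  have hu' := hu
  have hv' := hv
  obtain ⟨p1, p2, p3, p4, p5, r1, r2, r3, r4⟩ := hu
  obtain ⟨h1, h2, h3, h4, h5, t1, t2, t3, t4⟩ := hv
  have hth := congrArg th hS
  rw [th_sg] at hth
  unfold S6 at hS hth
  simp only [map_add, map_mul, map_pow, u0, v0, map_one, r1, r2, r3, r4, t1, t2, t3, t4, th_dB] at hth
  rw [u0, v0] at hS
  by_cases hm : Even (x + y)
  · exfalso
    have hs : sg (x + y) = 1 := by unfold sg; rw [if_pos hm]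
    rw [hs, one_mul] at hS
    have P1 : (dB * u.a1 + u.a3 + u.a4) * (v.a3 + v.a4) = T (x + y) := by
      apply mul_left_cancel₀ two_ne
      linear_combination hS + hth
    have P2 : (dB + u.a2) * (dB ^ 2 + dB * v.a1 + dB * v.a2 + v.a3 + v.a4) + 
        (dB * u.a1 + u.a3 + u.a4) * (dB + v.a1 + v.a2) = 0 := by
      apply mul_left_cancel₀ two_ne
      linear_combination hS - hth
    have k1 := congrArg e1 h1
    have k2 := congrArg e1 h2
    have k3 := congrArg e1 h3
    have k4 := congrArg e1 h4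
    have q1 := congrArg e1 p1
    have q2 := congrArg e1 p2
    have q3 := congrArg e1 p3
    have q4 := congrArg e1 p4
    have z1 := congrArg e1 P1
    have z2 := congrArg e1 P2
    simp only [map_add, map_mul, map_neg, map_one, map_pow, map_zero, e1_T, e1_ba, e1_dB, mul_one, e1_sg] at k1 k2 k3 k4 q1 q2 q3 q4 z1 z2
    by_cases hy : Even y
    · have hx : Even x := by
        rw [Int.even_add] at hm
        exact hm.2 hy
      rw [if_pos hy] at k1 k2 k3 k4
      rw [if_pos hx] at q1 q2 q3 q4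
      rcases Int.mul_eq_one_iff_eq_one_or_neg_one.1 z1 with ⟨g, g'⟩ | ⟨g, g'⟩
      · have e2' : e1 v.a1 = 1 := by omega
        have e3' : e1 v.a2 = 1 := by omega
        have e4' : e1 u.a2 = -1 := by omega
        have e5' : e1 v.a4 = 1 - e1 v.a3 := by omega
        rw [e2', e3', e4', e5', g] at z2
        omega
      · have e2' : e1 v.a1 = -1 := by omega
        have e3' : e1 v.a2 = -1 := by omega
        have e4' : e1 u.a2 = 1 := by omega
        have e5' : e1 v.a4 = -1 - e1 v.a3 := by omega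
        rw [e2', e3', e4', e5', g] at z2
        omega
    · rw [if_neg hy] at k1 k2 k3 k4
      rcases Int.mul_eq_one_iff_eq_one_or_neg_one.1 z1 with ⟨g, g'⟩ | ⟨g, g'⟩
      · omega
      · omega
  · have hs : sg (x + y) = -1 := by unfold sg; rw [if_neg hm]
    rw [hs] at hS
    have P1 : (dB * u.a1 + u.a3 + u.a4) * (v.a3 + v.a4) = 0 := by
      apply mul_left_cancel₀ two_ne
      linear_combination hS + hth
    have P2 : (dB + u.a2) * (dB ^ 2 + dB * v.a1 + dB * v.a2 + v.a3 + v.a4) + 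
        (dB * u.a1 + u.a3 + u.a4) * (dB + v.a1 + v.a2) = - T (x + y) := by
      apply mul_left_cancel₀ two_ne
      linear_combination hS - hth
    rcases mul_eq_zero.1 P1 with hb | hr
    · right
      have P3 : S3 dB 0 v * (-(dB + u.a2)) = T (x + y) := by
        unfold S3
        rw [v0]
        rw [hb] at P2
        linear_combination -P2
      obtain ⟨hy, hτ⟩ := facB v0 hv' P3
      have hx : ¬ Even x := fun hx => hm (hx.add hy)
      have hsy : sg y = 1 := by unfold sg; rw [if_pos hy]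
      have hsx : sg x = -1 := by unfold sg; rw [if_neg hx]
      rw [hτ] at P3
      refine ⟨?_, by rw [hτ, hsy, one_mul]⟩
      have h6 : (T y : ℤ[T;T⁻¹]) * (-(dB + u.a2)) = T y * T x := by
        rw [P3, T_mul]
        congr 1
        ring
      have h7 := mul_left_cancel₀ (T_ne y) h6
      rw [hsx]
      unfold S2
      rw [u0]
      linear_combination -h7 + hb
    · left
      have P3 : (dB + (v.a1 + v.a2)) * (-((dB + u.a2) * dB + (dB * u.a1 + u.a3 + u.a4))) = T (x + y) := by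
        linear_combination -P2 + (dB + u.a2) * hr
      obtain ⟨hy, hk, hv2⟩ := facA v0 hv' hr P3
      refine ⟨hy, hv2, ?_⟩
      have hx : Even x := by
        rcases Int.even_or_odd x with h | h
        · exact h
        · exfalso
          apply hm
          rcases hy with rfl | rfl
          · exact h.add_odd (by decide)
          · exact h.add_odd (by decide)
      have hsx : sg x = 1 := by unfold sg; rw [if_pos hx]
      rw [hk] at P3
      have h6 : (T y : ℤ[T;T⁻¹]) * ((dB + u.a2) * dB + (dB * u.a1 + u.a3 + u.a4)) = T y * T x := by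
        rw [T_mul, add_comm y x, ← P3]
        ring
      have h7 := mul_left_cancel₀ (T_ne y) h6
      rw [hsx]
      unfold S3
      rw [u0]
      linear_combination h7

/-! ### the two families -/

theorem lc_sum (s : Bool) : dB + T (-(if s then 1 else -1)) = (- T (if s then 1 else -1) : ℤ[T;T⁻¹]) := by
  unfold dB
  cases s
  · show - T 1 - T (-1) + T 1 = (- T (-1) : ℤ[T;T⁻¹])
    ring
  · show - T 1 - T (-1) + T (-1) = (- T 1 : ℤ[T;T⁻¹])
    ring

theorem even_of_S3 {w : List (Bool × ℕ)} (hS : S3 dB 0 (X w) = sg (expo w) * T (expo w)) : Even (expo w) := by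
  have hE := X_eqs w
  rw [De_eq] at hE
  obtain ⟨h1, h2⟩ := sol4 (X_a0 w) hE hS
  rcases h1 with h | h | h <;> rw [h] <;> decide

theorem conv1 {u : List (Bool × ℕ)} (hS : S3 dB 0 (X u) = sg (expo u) * T (expo u)) (s : Bool) (i : Fin 2) : 
    S6 dB (X u) (X [(s, (i : ℕ))]) = sg (expo u + expo [(s, (i : ℕ))]) * T (expo u + expo [(s, (i : ℕ))]) := by
  have h0 := X_a0 u
  have he := even_of_S3 hS
  have hsu : sg (expo u) = 1 := by unfold sg; rw [if_pos he]
  rw [expo_letter]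
  have hm : ¬ Even (expo u + if s then 1 else -1) := by
    rw [Int.even_add]
    intro h
    have := h.1 he
    cases s <;> exact absurd this (by decide)
  have hs : sg (expo u + if s then 1 else -1) = -1 := by unfold sg; rw [if_neg hm]
  rw [hs]
  rw [hsu] at hS
  have hk := lc_sum s
  have h1 : S6 dB (X u) (X [(s, (i : ℕ))]) = S3 dB 0 (X u) * (dB + T (-(if s then 1 else -1))) := by
    fin_cases i
    · show S6 dB (X u) (X [(s, 0)]) = _
      rw [(X_letter s).1]
      unfold S6 S3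
      rw [h0]
      ring
    · show S6 dB (X u) (X [(s, 1)]) = _
      rw [(X_letter s).2]
      unfold S6 S3
      rw [h0]
      ring
  rw [h1, hS, hk, ← T_mul]
  ring

theorem conv2 {w : List (Bool × ℕ)} (hS : S3 dB 0 (X w) = sg (expo w) * T (expo w)) (s : Bool) (k : ℤ) : 
    S6 dB (X (t2 s k)) (X w) = sg (expo (t2 s k) + expo w) * T (expo (t2 s k) + expo w) := by
  have h0 := X_a0 w
  have he := even_of_S3 hS
  have hsu : sg (expo w) = 1 := by unfold sg; rw [if_pos he]
  have h2 := S2_t2 s k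
  obtain ⟨c, c', hc, hc', hcc, hX⟩ := X_t2 s k
  have hb : dB * (X (t2 s k)).a1 + (X (t2 s k)).a3 + (X (t2 s k)).a4 = 0 := by
    rw [hX]
    show dB * (lc (s, 1) * (c' * c)) + lc (s, 1) * c' + lc (s, 1) * c = 0
    linear_combination lc (s, 1) * hcc
  have h1 : S6 dB (X (t2 s k)) (X w) = S2 dB (X (t2 s k)) * S3 dB 0 (X w) := by
    have h00 := X_a0 (t2 s k)
    unfold S6 S3 S2
    rw [h0, h00]
    linear_combination (dB * 1 + (X w).a1 + (X w).a2 + (X w).a3 + (X w).a4 - 
      (dB ^ 2 * 1 + dB * (X w).a1 + dB * (X w).a2 + (X w).a3 + (X w).a4)) * hb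
  rw [h1, h2, hS, hsu, expo_t2]
  have ho : ¬ Even (if s then 1 else -1 : ℤ) := by cases s <;> decide
  have hm : ¬ Even ((if s then 1 else -1) + expo w) := by
    rw [Int.even_add]
    intro h
    exact ho (h.2 he)
  have hs : sg ((if s then 1 else -1) + expo w) = -1 := by unfold sg; rw [if_neg hm]
  have hs' : sg (if s then 1 else -1) = -1 := by unfold sg; rw [if_neg ho]
  rw [hs, hs', ← T_mul]
  ring

end Pool.Agent.U963.KN
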