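import Pool.Agent.U963.VB.Defs
import Pool.Agent.U963.VB.SolC
import Pool.Agent.U963.KN.Cl3

/-!
# The bracket of the virtual closures of two braids
-/

set_option autoImplicit false

namespace Pool.Agent.U963.KN

open Finset LaurentPolynomial Pool.Agent.H891R2.Jones Pool.Agent.W639.RB Pool.Agent.Y463.SK Pool.Agent.Y463.MP
open Pool.Agent.TH561 (dl ee_of KK)
open Pool.Agent.U963.AR (V3 run one stp wZ wZ_val bracket_draw)
open Pool.Agent.U963.VB (closeLast insertVirtual twoBraids)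
open Pool.Agent.U963.JN (un fPoly_eq)

theorem isTLr_ee (m N : ℕ) (W : Type) [AddCommGroup W] [Module ℂ W] : IsTLr m (N : ℂ) (ee m N W) where
  sq := (isTL_ee m N).sq
  up := (isTL_ee m N).up
  down := (isTL_ee m N).down
  far := (isTL_ee m N).far

theorem rho3 {N : ℕ} (hN : 3 ≤ N) (w : List (Bool × ℕ)) (hw : ∀ x ∈ w, x.2 + 1 < 3) : 
    rho (Ar N) 3 N w = AR.val (ee 3 N ((Fin 3 → Fin N) → ℂ)) ((run (T 1) (T (-1)) dl w (one ℤ[T;T⁻¹])).map (ev N hN)) := by
  rw [AR.map_run, AR.map_one', ev_T1, ev_Tm1, ev_dl']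
  have h2 := AR.val_run (A := Ar N) (A' := (Ar N)⁻¹) (isTLr_ee 3 N ((Fin 3 → Fin N) → ℂ)) w (one ℂ) hw
  rw [AR.val_one, one_mul] at h2
  rw [h2]
  unfold rho wd
  congr 1
  apply List.map_congr_left
  intro x _
  unfold lt ltr Pool.Agent.H891R2.Jones.sg
  split_ifs
  · rfl
  · rw [inv_inv]

theorem Zg_closeLast {N : ℕ} (A : ℂ) (O : Outer 3) (h : (Fin 2 → Fin N) → ((Fin 2 → Fin N) → ℂ)) : 
    Zg A N (closeLast O) h = Zg A N O (fun x y => if x 2 = y 2 then h ![x 0, x 1] ![y 0, y 1] else 0) := by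
  unfold Zg
  show (∑ col : O.P → Fin N, WW A (O.arcs ++ [(O.lower 2, O.upper 2)]) O.crossings col * 
    h (col ∘ (closeLast O).lower) (col ∘ (closeLast O).upper)) = _
  refine Finset.sum_congr rfl fun col _ => ?_
  have e1 : WW A (O.arcs ++ [(O.lower 2, O.upper 2)]) O.crossings col = 
      WW A O.arcs O.crossings col * ind (col (O.lower 2) = col (O.upper 2)) := by
    unfold WW
    rw [List.map_append, List.prod_append]
    simp only [List.map_cons, List.map_nil, List.prod_cons, List.prod_nil, mul_one]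
    rw [mul_right_comm]
    rfl
  have e2 : col ∘ (closeLast O).lower = ![(col ∘ O.lower) 0, (col ∘ O.lower) 1] := by
    funext j
    fin_cases j <;> rfl
  have e3 : col ∘ (closeLast O).upper = ![(col ∘ O.upper) 0, (col ∘ O.upper) 1] := by
    funext j
    fin_cases j <;> rfl
  rw [e1, e2, e3, mul_assoc]
  congr 1
  show ind (col (O.lower 2) = col (O.upper 2)) * _ = if col (O.lower 2) = col (O.upper 2) then _ else _
  by_cases hc : col (O.lower 2) = col (O.upper 2)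
  · rw [ind_pos hc, if_pos hc, one_mul]
  · rw [ind_neg hc, if_neg hc, zero_mul]

theorem WW_map' {P : Type} {N : ℕ} (A : ℂ) (arcs : List (P × P)) (crossings : List (Crossing P)) (col : P ⊕ Unit → Fin N) : 
    WW A (arcs.map (Prod.map Sum.inl Sum.inl)) (crossings.map (Crossing.map Sum.inl)) col = 
      WW A arcs crossings (col ∘ Sum.inl) := by
  unfold WW
  rw [List.map_map, List.map_map]
  rfl

theorem sum_unit {N : ℕ} (F : (Unit → Fin N) → ℂ) : ∑ x, F x = ∑ a, F (fun _ => a) := by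
  rw [← (Equiv.funUnique Unit (Fin N)).symm.sum_comp]
  refine Finset.sum_congr rfl fun a _ => ?_
  congr 1

theorem Zg_insertVirtual {N : ℕ} (A : ℂ) (O : Outer 2) (g : (Fin 3 → Fin N) → ((Fin 3 → Fin N) → ℂ)) : 
    Zg A N (insertVirtual O) g = ∑ a, Zg A N O (fun x y => g ![x 0, a, x 1] ![y 0, a, y 1]) := by
  have e : Zg A N (insertVirtual O) g = ∑ u : O.P → Fin N, ∑ x : Unit → Fin N, WW A O.arcs O.crossings u * 
      g ![u (O.lower 0), x (), u (O.lower 1)] ![u (O.upper 0), x (), u (O.upper 1)] := by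
    unfold Zg
    show (∑ col : O.P ⊕ Unit → Fin N, WW A (O.arcs.map (Prod.map Sum.inl Sum.inl)) (O.crossings.map (Crossing.map Sum.inl)) col * 
      g (col ∘ (insertVirtual O).lower) (col ∘ (insertVirtual O).upper)) = _
    rw [← (Equiv.sumArrowEquivProdArrow O.P Unit (Fin N)).symm.sum_comp, Fintype.sum_prod_type]
    refine Finset.sum_congr rfl fun u _ => Finset.sum_congr rfl fun x _ => ?_
    rw [WW_map']
    congr 1
    have e1 : ((Equiv.sumArrowEquivProdArrow O.P Unit (Fin N)).symm (u, x)) ∘ (insertVirtual O).lower = 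
        ![u (O.lower 0), x (), u (O.lower 1)] := by
      funext j
      fin_cases j <;> rfl
    have e2 : ((Equiv.sumArrowEquivProdArrow O.P Unit (Fin N)).symm (u, x)) ∘ (insertVirtual O).upper = 
        ![u (O.upper 0), x (), u (O.upper 1)] := by
      funext j
      fin_cases j <;> rfl
    rw [e1, e2]
  rw [e, Finset.sum_comm, sum_unit]
  rfl

theorem sum_three {N : ℕ} (F : (Fin 3 → Fin N) → ℂ) : ∑ x, F x = ∑ p, ∑ q, ∑ r, F ![p, q, r] := by
  have h : ∀ {n : ℕ} (G : (Fin (n + 1) → Fin N) → ℂ), 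
      ∑ col : Fin (n + 1) → Fin N, G col = ∑ a, ∑ col : Fin n → Fin N, G (Matrix.vecCons a col) := by
    intro n G
    rw [← (Fin.consEquiv (fun _ => Fin N)).sum_comp, Fintype.sum_prod_type]
    rfl
  rw [h]
  refine Finset.sum_congr rfl fun a _ => ?_
  rw [sum_two]

theorem Zg_cl3 {N : ℕ} (A : ℂ) (h : (Fin 3 → Fin N) → ((Fin 3 → Fin N) → ℂ)) : 
    Zg A N (braidClosure 3) h = ∑ p, ∑ q, ∑ r, h ![p, q, r] ![p, q, r] := by
  rw [← sum_three (fun x => h x x)]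
  unfold Zg
  refine Finset.sum_congr rfl fun col _ => ?_
  have : WW A (braidClosure 3).arcs (braidClosure 3).crossings col = 1 := by
    simp [WW, braidClosure]
  rw [this, one_mul]
  rfl

/-- the function with a closed last strand -/
noncomputable def hl {N : ℕ} (h : (Fin 2 → Fin N) → ((Fin 2 → Fin N) → ℂ)) : (Fin 3 → Fin N) → ((Fin 3 → Fin N) → ℂ) := 
  fun x y => if x 2 = y 2 then h ![x 0, x 1] ![y 0, y 1] else 0

theorem hl_apply {N : ℕ} (h : (Fin 2 → Fin N) → ((Fin 2 → Fin N) → ℂ)) (a b c a' b' c' : Fin N) : 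
    hl h ![a, b, c] ![a', b', c'] = if c = c' then h ![a, b] ![a', b'] else 0 := rfl

theorem sm0 {N : ℕ} (h : (Fin 2 → Fin N) → ((Fin 2 → Fin N) → ℂ)) : 
    (∑ p, ∑ q, ∑ r, hl h ![p, q, r] ![p, q, r]) = (N : ℂ) * ∑ p, ∑ q, h ![p, q] ![p, q] := by
  simp only [hl_apply, if_true, Finset.sum_const, Finset.card_univ, Fintype.card_fin, nsmul_eq_mul, Finset.mul_sum]

theorem sm1 {N : ℕ} (h : (Fin 2 → Fin N) → ((Fin 2 → Fin N) → ℂ)) : 
    (∑ p, ∑ q, ∑ r, ee 3 N ((Fin 3 → Fin N) → ℂ) 0 (hl h) ![p, q, r] ![p, q, r]) = (N : ℂ) * ∑ p, ∑ e, h ![e, e] ![p, p] := by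
  simp only [ee0, hl_apply, if_true, Finset.sum_const, Finset.card_univ, Fintype.card_fin, nsmul_eq_mul, 
    Finset.sum_ite_eq, Finset.mem_univ, Finset.mul_sum, mul_ite, mul_zero]

theorem sm2 {N : ℕ} (h : (Fin 2 → Fin N) → ((Fin 2 → Fin N) → ℂ)) : 
    (∑ p, ∑ q, ∑ r, ee 3 N ((Fin 3 → Fin N) → ℂ) 1 (hl h) ![p, q, r] ![p, q, r]) = ∑ p, ∑ q, h ![p, q] ![p, q] := by
  simp only [ee1, hl_apply, Finset.sum_ite_eq, Finset.sum_ite_eq', Finset.mem_univ, if_true]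

theorem sm3 {N : ℕ} (h : (Fin 2 → Fin N) → ((Fin 2 → Fin N) → ℂ)) : 
    (∑ p, ∑ q, ∑ r, ee 3 N ((Fin 3 → Fin N) → ℂ) 0 (ee 3 N ((Fin 3 → Fin N) → ℂ) 1 (hl h)) ![p, q, r] ![p, q, r]) = 
      ∑ p, ∑ e, h ![e, e] ![p, p] := by
  simp only [ee0, ee1, hl_apply, Finset.sum_ite_eq', Finset.mem_univ, if_true]
  refine Finset.sum_congr rfl fun p _ => ?_
  simp only [Finset.sum_ite_irrel, Finset.sum_const_zero, Finset.sum_ite_eq, Finset.mem_univ, if_true]

theorem sm4 {N : ℕ} (h : (Fin 2 → Fin N) → ((Fin 2 → Fin N) → ℂ)) : 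
    (∑ p, ∑ q, ∑ r, ee 3 N ((Fin 3 → Fin N) → ℂ) 1 (ee 3 N ((Fin 3 → Fin N) → ℂ) 0 (hl h)) ![p, q, r] ![p, q, r]) = 
      ∑ p, ∑ e, h ![e, e] ![p, p] := by
  simp only [ee0, ee1, hl_apply, Finset.sum_ite_eq, Finset.mem_univ, if_true]
  refine Finset.sum_congr rfl fun p _ => ?_
  simp only [Finset.sum_ite_irrel, Finset.sum_const_zero, Finset.sum_ite_eq, Finset.mem_univ, if_true]

theorem Zg_u {N : ℕ} (hN : 3 ≤ N) (u : List (Bool × ℕ)) (hu : ∀ x ∈ u, x.2 + 1 < 3) 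
    (h : (Fin 2 → Fin N) → ((Fin 2 → Fin N) → ℂ)) : 
    Zg (Ar N) N (closeLast (draw (braidClosure 3) u)) h = 
      ev N hN (T (expo u)) * (ev N hN (io (dB + (X u).a2)) * (∑ p, ∑ q, h ![p, q] ![p, q]) + 
        ev N hN (io (dB * (X u).a1 + (X u).a3 + (X u).a4)) * ∑ p, ∑ e, h ![e, e] ![p, p]) := by
  have h0 := X_a0 u
  have e1 : Zg (Ar N) N (closeLast (draw (braidClosure 3) u)) h = 
      Zg (Ar N) N (braidClosure 3) (rho (Ar N) 3 N u (hl h)) := by
    rw [Zg_closeLast, Zg_draw _ _ hu]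
    rfl
  rw [e1, rho3 hN u hu, run_X]
  unfold AR.val
  simp only [LinearMap.add_apply, LinearMap.smul_apply, Zg_add, Zg_smul, Module.End.mul_apply, Module.End.one_apply, Zg_cl3,
    sm0, sm1, sm2, sm3, sm4]
  simp only [AR.V3.map, sc, h0, map_add, map_mul, map_one, io_dB, ev_dl']
  ring

/-- the outside with the first braid, letters with natural numbers -/
def twoN (u : List (Bool × ℕ)) : Outer 3 := insertVirtual (closeLast (draw (braidClosure 3) u))

theorem Zg_twoN {N : ℕ} (hN : 3 ≤ N) (u : List (Bool × ℕ)) (hu : ∀ x ∈ u, x.2 + 1 < 3) 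
    (g : (Fin 3 → Fin N) → ((Fin 3 → Fin N) → ℂ)) : 
    Zg (Ar N) N (twoN u) g = 
      ev N hN (T (expo u)) * (ev N hN (io (dB + (X u).a2)) * (∑ a, ∑ p, ∑ q, g ![p, a, q] ![p, a, q]) + 
        ev N hN (io (dB * (X u).a1 + (X u).a3 + (X u).a4)) * ∑ a, ∑ p, ∑ e, g ![e, a, e] ![p, a, p]) := by
  unfold twoN
  rw [Zg_insertVirtual]
  simp only [Zg_u hN u hu]
  simp only [← Finset.mul_sum, Finset.sum_add_distrib]
  rfl

theorem PhiS_two (u : List (Bool × ℕ)) (hu : ∀ x ∈ u, x.2 + 1 < 3) (α β : ℤ[T;T⁻¹]) (hα : α = io (dB + (X u).a2)) 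
    (hβ : β = io (dB * (X u).a1 + (X u).a3 + (X u).a4)) : 
    PhiS (by omega) (twoN u) 1 = T (expo u) * (α * dl ^ 2 + β * dl) ∧ 
    PhiS (by omega) (twoN u) (EZ 3 0) = T (expo u) * (α * dl + β * 1) ∧
    PhiS (by omega) (twoN u) (EZ 3 1) = T (expo u) * (α * dl + β * 1) ∧ 
    PhiS (by omega) (twoN u) (EZ 3 0 * EZ 3 1) = T (expo u) * (α * 1 + β * 1) ∧
    PhiS (by omega) (twoN u) (EZ 3 1 * EZ 3 0) = T (expo u) * (α * 1 + β * 1) := by
  subst hα hβ
  refine ⟨PhiS_at _ _ _ fun N hN => ?_, PhiS_at _ _ _ fun N hN => ?_, PhiS_at _ _ _ fun N hN => ?_, 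
    PhiS_at _ _ _ fun N hN => ?_, PhiS_at _ _ _ fun N hN => ?_⟩
  all_goals
    rw [Zg_twoN hN u hu]
    generalize io (dB + (X u).a2) = α
    generalize io (dB * (X u).a1 + (X u).a3 + (X u).a4) = β
    simp only [B1, B0, B2, B3, B4, ee0, ee1, ind3, map_one, map_mul, map_add, map_pow, ev_dl']
    rw [mul_left_comm]
    congr 1
    simp [Finset.sum_ite_eq, Finset.sum_ite_eq', (ind_pos True.intro : ind True = 1)]
    try ring

theorem S6_sc (r d : ℤ[T;T⁻¹]) (u v : V3 ℤ[T;T⁻¹]) : S6 d u (sc r v) = r * S6 d u v := by unfold S6 sc; ring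

theorem S6_io (u v : V3 ℤ[T;T⁻¹]) : S6 dl (u.map io) (v.map io) = io (S6 dB u v) := by
  unfold S6 AR.V3.map
  simp only [map_add, map_mul, map_pow, io_dB]

theorem b_two (u : List (Bool × ℕ)) (hu : ∀ x ∈ u, x.2 + 1 < 3) (w : List (Bool × ℕ)) (hw : ∀ x ∈ w, x.2 + 1 < 3) : 
    (draw (twoN u) w).close.bracket = T (expo u) * (T (expo w) * io (S6 dB (X u) (X w))) := by
  obtain ⟨h0, h1, h2, h3, h4⟩ := PhiS_two u hu _ _ rfl rfl
  have hu0 := X_a0 u
  rw [bracket_run _ w hw, PhiS_val _ _ h0 h1 h2 h3 h4, run_X, ← S6_io, ← S6_sc]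
  unfold S6
  simp only [map_add, map_mul, io_dB]
  simp only [AR.V3.map, hu0, map_one]
  ring

theorem writhe_two (u : List (Bool × ℕ)) (hu : ∀ x ∈ u, x.2 + 1 < 3) (w : List (Bool × ℕ)) (hw : ∀ x ∈ w, x.2 + 1 < 3) : 
    (draw (twoN u) w).close.writhe = expo u + expo w := by
  rw [close_writhe, (draw_up w (twoN u) hw (fun _ => rfl)).2]
  congr 1
  have h1 : owr (twoN u) = owr (draw (braidClosure 3) u) := by
    unfold owr twoN insertVirtual closeLast
    dsimp only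
    rw [List.map_map]
    rfl
  rw [h1, (draw_up _ (braidClosure 3) hu (fun _ => rfl)).2]
  have h2 : owr (braidClosure 3) = 0 := rfl
  rw [h2, zero_add]

theorem f_two (u : List (Bool × ℕ)) (hu : ∀ x ∈ u, x.2 + 1 < 3) (w : List (Bool × ℕ)) (hw : ∀ x ∈ w, x.2 + 1 < 3) : 
    (draw (twoN u) w).close.fPoly = 1 ↔ S6 dB (X u) (X w) = sg (expo u + expo w) * T (expo u + expo w) := by
  rw [fPoly_eq, writhe_two u hu w hw, b_two u hu w hw, ← mul_assoc (T (expo u)), T_mul, f_one_iff]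

end Pool.Agent.U963.KN
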